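import Pool.Agent.Helper98.EX.Stmts

set_option autoImplicit false

namespace Pool.Agent.Helper98.EX

open Finset

variable {N : ℕ} {r l : ℕ → ℝ}

/-- sup-Lipschitz functions -/
def concLip {N : ℕ} (G : Cfg N → ℝ) : Prop :=
  ∀ (c : ℕ) (η ξ : Cfg N), hle c η ξ → hle c ξ η → G η ≤ G ξ + c

theorem conc_lip_ht (x : ℕ) : concLip (fun ζ : Cfg N => (ht ζ x : ℝ)) := by
  intro c η ξ h _
  have := h x
  show (ht η x : ℝ) ≤ (ht ξ x : ℝ) + c
  exact_mod_cast this

theorem conc_lip_stp (h : Adm N r l) {G : Cfg N → ℝ} (hG : concLip G) (S : Finset ℕ) :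
    concLip (stp r l S G) := by
  intro c η ξ h1 h2
  have h3 := stp_couple (S := S) (S' := S) (f := G) (g := fun ζ => G ζ + (c : ℝ)) h (hG c η ξ h1 h2)
    (fun x _ _ => hG c _ _ (hle_RmS h1 S x) (hle_RmS h2 S x))
    (fun x _ _ => hG c _ _ (hle_LmS h1 S x) (hle_LmS h2 S x))
  rw [stp_add, stp_const] at h3
  exact h3

theorem conc_lip_ev (h : Adm N r l) {G : Cfg N → ℝ} (hG : concLip G) (σ : ℕ → Finset ℕ) (m : ℕ) :
    concLip (ev r l σ m G) := by
  induction m generalizing σ with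
  | zero => exact hG
  | succ m ih => exact conc_lip_stp h (ih _) _

/-- distance of height functions -/
def concD {N : ℕ} (η ξ : Cfg N) : ℕ := (range N).sup (fun x => Nat.dist (ht ξ x) (ht η x))

theorem conc_D_hle (η ξ : Cfg N) : hle (concD η ξ) η ξ ∧ hle (concD η ξ) ξ η := by
  have key : ∀ x, Nat.dist (ht ξ x) (ht η x) ≤ concD η ξ := by
    intro x
    by_cases hx : x < N
    · exact Finset.le_sup (f := fun x => Nat.dist (ht ξ x) (ht η x)) (mem_range.2 hx)
    · rw [ht_ge (by omega), ht_ge (by omega), Nat.dist_self]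
      exact Nat.zero_le _
  constructor
  · intro x
    have := key x
    unfold Nat.dist at this
    omega
  · intro x
    have := key x
    unfold Nat.dist at this
    omega

noncomputable def concF {N : ℕ} (η : Cfg N) (x : ℕ) (ξ : Cfg N) : ℝ :=
  Real.exp (2 * (Nat.dist (ht ξ x) (ht η x) : ℕ))

theorem conc_F_step (h : Adm N r l) (hN : 3 ≤ N) (η : Cfg N) (x : ℕ) (S : Finset ℕ) (ξ : Cfg N) :
    stp r l S (concF η x) ξ ≤ (1 + (Real.exp 2 - 1) / N) * concF η x ξ := by
  have hN' : (0 : ℝ) < N := by exact_mod_cast (by omega : 0 < N)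
  have hF0 : 0 < concF η x ξ := Real.exp_pos _
  have he : (1 : ℝ) ≤ Real.exp 2 := Real.one_le_exp (by norm_num)
  -- comparison of values
  have hcmp : ∀ ζ : Cfg N, Nat.dist (ht ζ x) (ht η x) ≤ Nat.dist (ht ξ x) (ht η x) + 1 →
      concF η x ζ - concF η x ξ ≤ (Real.exp 2 - 1) * concF η x ξ := by
    intro ζ hζ
    have h1 : concF η x ζ ≤ Real.exp 2 * concF η x ξ := by
      unfold concF
      rw [← Real.exp_add]
      apply Real.exp_le_exp.2
      have : ((Nat.dist (ht ζ x) (ht η x) : ℕ) : ℝ) ≤ (Nat.dist (ht ξ x) (ht η x) : ℕ) + 1 := by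
        exact_mod_cast hζ
      linarith
    linarith
  have hterm : ∀ y ∈ full N, (r y * (concF η x (RmS S y ξ) - concF η x ξ) +
      l y * (concF η x (LmS S y ξ) - concF η x ξ)) ≤
      if y = x then 2 * ((Real.exp 2 - 1) * concF η x ξ) else 0 := by
    intro y hy
    rw [full, Finset.mem_Ico] at hy
    obtain ⟨hr0, hr1, hl0, hl1⟩ := h y hy.1 hy.2
    by_cases hyx : y = x
    · rw [if_pos hyx]
      have a1 : concF η x (RmS S y ξ) - concF η x ξ ≤ (Real.exp 2 - 1) * concF η x ξ := by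
        apply hcmp
        have e1 : ht ξ x ≤ ht (RmS S y ξ) x ∧ ht (RmS S y ξ) x ≤ ht ξ x + 1 := by
          unfold RmS; split_ifs
          · exact ⟨ht_Rm_ge ξ y x, ht_Rm_le ξ y x⟩
          · omega
        unfold Nat.dist
        omega
      have a2 : concF η x (LmS S y ξ) - concF η x ξ ≤ (Real.exp 2 - 1) * concF η x ξ := by
        apply hcmp
        have e1 : ht (LmS S y ξ) x ≤ ht ξ x ∧ ht ξ x ≤ ht (LmS S y ξ) x + 1 := by
          unfold LmS; split_ifs
          · exact ⟨ht_Lm_le ξ y x, ht_Lm_ge ξ y x⟩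
          · omega
        unfold Nat.dist
        omega
      have hB : 0 ≤ (Real.exp 2 - 1) * concF η x ξ := mul_nonneg (by linarith) hF0.le
      have b1 : r y * (concF η x (RmS S y ξ) - concF η x ξ) ≤ (Real.exp 2 - 1) * concF η x ξ := by
        nlinarith
      have b2 : l y * (concF η x (LmS S y ξ) - concF η x ξ) ≤ (Real.exp 2 - 1) * concF η x ξ := by
        nlinarith
      linarith
    · rw [if_neg hyx]
      have e1 : concF η x (RmS S y ξ) = concF η x ξ := by
        unfold concF RmS; split_ifs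
        · rw [ht_Rm_ne ξ (Ne.symm hyx)]
        · rfl
      have e2 : concF η x (LmS S y ξ) = concF η x ξ := by
        unfold concF LmS; split_ifs
        · rw [ht_Lm_ne ξ (Ne.symm hyx)]
        · rfl
      rw [e1, e2]
      simp
  have hsum := Finset.sum_le_sum hterm
  have hsum2 : ∑ y ∈ full N, (if y = x then 2 * ((Real.exp 2 - 1) * concF η x ξ) else 0) ≤
      2 * ((Real.exp 2 - 1) * concF η x ξ) := by
    rw [Finset.sum_ite_eq']
    split_ifs
    · exact le_rfl
    · exact mul_nonneg (by norm_num) (mul_nonneg (by linarith) hF0.le)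
  unfold stp
  have h5 := (hsum.trans hsum2)
  have h6 : (∑ y ∈ full N, (r y * (concF η x (RmS S y ξ) - concF η x ξ) +
      l y * (concF η x (LmS S y ξ) - concF η x ξ))) / (2 * N) ≤
      (2 * ((Real.exp 2 - 1) * concF η x ξ)) / (2 * N) :=
    div_le_div_of_nonneg_right h5 (by positivity)
  have h7 : (2 * ((Real.exp 2 - 1) * concF η x ξ)) / (2 * N) = (Real.exp 2 - 1) / N * concF η x ξ := by
    field_simp
  rw [h7] at h6
  linarith

theorem conc_F_ev (h : Adm N r l) (hN : 3 ≤ N) (η : Cfg N) (x : ℕ) (σ : ℕ → Finset ℕ) (m : ℕ)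
    (ξ : Cfg N) :
    ev r l σ m (concF η x) ξ ≤ (1 + (Real.exp 2 - 1) / N) ^ m * concF η x ξ := by
  have hK : 0 ≤ (1 + (Real.exp 2 - 1) / (N : ℝ)) := by
    have : (1 : ℝ) ≤ Real.exp 2 := Real.one_le_exp (by norm_num)
    have : 0 ≤ (Real.exp 2 - 1) / (N : ℝ) := div_nonneg (by linarith) (Nat.cast_nonneg _)
    linarith
  induction m generalizing σ ξ with
  | zero => simp [ev]
  | succ m ih =>
    rw [ev_succ]
    calc stp r l (σ 0) (ev r l (fun i => σ (i + 1)) m (concF η x)) ξ
        ≤ stp r l (σ 0) (fun ζ => (1 + (Real.exp 2 - 1) / N) ^ m * concF η x ζ) ξ :=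
          stp_mono h (fun ζ => ih _ ζ) ξ
      _ = (1 + (Real.exp 2 - 1) / N) ^ m * stp r l (σ 0) (concF η x) ξ := by rw [stp_smul]
      _ ≤ (1 + (Real.exp 2 - 1) / N) ^ m * ((1 + (Real.exp 2 - 1) / N) * concF η x ξ) :=
          mul_le_mul_of_nonneg_left (conc_F_step h hN η x _ ξ) (pow_nonneg hK m)
      _ = _ := by ring

theorem conc_D_ev (h : Adm N r l) (hN : 3 ≤ N) (η : Cfg N) (σ : ℕ → Finset ℕ) (m : ℕ)
    (hm : m ≤ 2 * N) :
    ev r l σ m (fun ξ => Real.exp (2 * (concD η ξ : ℕ))) η ≤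
      N * Real.exp (2 * (Real.exp 2 - 1)) := by
  have hN' : (0 : ℝ) < N := by exact_mod_cast (by omega : 0 < N)
  have h1 : ∀ ξ : Cfg N, Real.exp (2 * (concD η ξ : ℕ)) ≤ ∑ x ∈ range N, concF η x ξ := by
    intro ξ
    have hne : (range N).Nonempty := ⟨0, mem_range.2 (by omega)⟩
    obtain ⟨x, hx, hxe⟩ := Finset.exists_mem_eq_sup (range N) hne
      (fun x => Nat.dist (ht ξ x) (ht η x))
    have h2 : Real.exp (2 * (concD η ξ : ℕ)) = concF η x ξ := by
      unfold concD concF
      rw [hxe]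
    rw [h2]
    exact Finset.single_le_sum (f := fun x => concF η x ξ) (fun y _ => (Real.exp_pos _).le) hx
  refine (ev_mono h h1 σ m η).trans ?_
  rw [ev_sum]
  have h3 : ∀ x ∈ range N, ev r l σ m (concF η x) η ≤ Real.exp (2 * (Real.exp 2 - 1)) := by
    intro x _
    have h4 := conc_F_ev h hN η x σ m η
    have h5 : concF η x η = 1 := by
      unfold concF
      rw [Nat.dist_self]; simp
    rw [h5, mul_one] at h4
    refine h4.trans ?_
    have he : (0 : ℝ) ≤ Real.exp 2 - 1 := by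
      have := Real.one_le_exp (show (0 : ℝ) ≤ 2 by norm_num); linarith
    calc (1 + (Real.exp 2 - 1) / N) ^ m ≤ (Real.exp ((Real.exp 2 - 1) / N)) ^ m := by
          apply pow_le_pow_left₀
          · have : 0 ≤ (Real.exp 2 - 1) / (N : ℝ) := div_nonneg he hN'.le
            linarith
          · have := Real.add_one_le_exp ((Real.exp 2 - 1) / (N : ℝ)); linarith
      _ = Real.exp (m * ((Real.exp 2 - 1) / N)) := by rw [← Real.exp_nat_mul]
      _ ≤ Real.exp (2 * (Real.exp 2 - 1)) := by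
          apply Real.exp_le_exp.2
          have hm' : (m : ℝ) ≤ 2 * N := by exact_mod_cast hm
          calc (m : ℝ) * ((Real.exp 2 - 1) / N) ≤ (2 * N) * ((Real.exp 2 - 1) / N) :=
                mul_le_mul_of_nonneg_right hm' (div_nonneg he hN'.le)
            _ = 2 * (Real.exp 2 - 1) := by field_simp
  calc ∑ x ∈ range N, ev r l σ m (concF η x) η ≤ ∑ _x ∈ range N, Real.exp (2 * (Real.exp 2 - 1)) :=
        Finset.sum_le_sum h3
    _ = _ := by rw [Finset.sum_const, card_range, nsmul_eq_mul]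

theorem conc_exp (y : ℝ) : Real.exp y ≤ 1 + y + y ^ 2 * Real.exp |y| := by
  rcases le_or_gt |y| 1 with h | h
  · have h1 := (abs_le.1 (Real.abs_exp_sub_one_sub_id_le h)).2
    have h2 : (1 : ℝ) ≤ Real.exp |y| := Real.one_le_exp (abs_nonneg y)
    nlinarith [sq_nonneg y]
  · rcases lt_or_ge 0 y with hy | hy
    · rw [abs_of_pos hy] at h ⊢
      have h2 : 0 < Real.exp y := Real.exp_pos y
      nlinarith [mul_pos (mul_pos hy hy) h2, sq_nonneg (y - 1)]
    · rw [abs_of_nonpos hy] at h ⊢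
      have h1 : Real.exp y ≤ 1 := Real.exp_le_one_iff.2 hy
      have h2 : (1 : ℝ) ≤ Real.exp (-y) := Real.one_le_exp (by linarith)
      nlinarith [sq_nonneg y, mul_nonneg (sq_nonneg y) (show (0 : ℝ) ≤ Real.exp (-y) - 1 by linarith)]

/-- the constant -/
noncomputable def concC : ℝ := 16 * Real.exp 4 + 8 * Real.exp (2 * (Real.exp 2 - 1))

theorem conc_logN (hN : 3 ≤ N) : 1 ≤ Real.log N := by
  rw [Real.le_log_iff_exp_le (by exact_mod_cast (by omega : 0 < N))]
  have h3 : (3 : ℝ) ≤ N := by exact_mod_cast hN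
  have := Real.exp_one_lt_d9
  linarith

/-- pointwise bound of `D² e^{|lam| D}` -/
theorem conc_pt (hN : 3 ≤ N) (lam D : ℝ) (hD : 0 ≤ D) (hlam : |lam| ≤ 1 / Real.log N) :
    D ^ 2 * Real.exp (|lam| * D) ≤
      16 * Real.exp 4 * Real.log N ^ 2 + 8 / (N : ℝ) ^ 2 * Real.exp (2 * D) := by
  have hL := conc_logN hN
  have hL0 : 0 < Real.log N := by linarith
  have hN' : (0 : ℝ) < N := by exact_mod_cast (by omega : 0 < N)
  rcases le_or_gt D (4 * Real.log N) with h | h
  · have h1 : |lam| * D ≤ 4 := by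
      calc |lam| * D ≤ 1 / Real.log N * (4 * Real.log N) :=
            mul_le_mul hlam h hD (by positivity)
        _ = 4 := by field_simp
    have h2 : Real.exp (|lam| * D) ≤ Real.exp 4 := Real.exp_le_exp.2 h1
    have h3 : D ^ 2 ≤ (4 * Real.log N) ^ 2 := pow_le_pow_left₀ hD h 2
    have h4 : D ^ 2 * Real.exp (|lam| * D) ≤ (4 * Real.log N) ^ 2 * Real.exp 4 :=
      mul_le_mul h3 h2 (Real.exp_pos _).le (by positivity)
    have h5 : 0 ≤ 8 / (N : ℝ) ^ 2 * Real.exp (2 * D) := by positivity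
    calc _ ≤ _ := h4
      _ = 16 * Real.exp 4 * Real.log N ^ 2 := by ring
      _ ≤ _ := by linarith
  · have h1 : |lam| * D ≤ D := by
      have : |lam| ≤ 1 := hlam.trans (by
        rw [div_le_one hL0]; exact hL)
      nlinarith
    have h2 : D ^ 2 ≤ 8 * Real.exp (D / 2) := by
      have h3 := Real.quadratic_le_exp_of_nonneg (show 0 ≤ D / 2 by linarith)
      nlinarith
    have h3 : (N : ℝ) ^ 2 ≤ Real.exp (D / 2) := by
      have : Real.exp (2 * Real.log N) = (N : ℝ) ^ 2 := by
        rw [mul_comm, Real.exp_mul, Real.exp_log hN']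
        norm_cast
      rw [← this]
      exact Real.exp_le_exp.2 (by linarith)
    have h4 : D ^ 2 * Real.exp (|lam| * D) ≤ 8 * Real.exp (D / 2) * Real.exp D :=
      mul_le_mul h2 (Real.exp_le_exp.2 h1) (Real.exp_pos _).le (by positivity)
    have h5 : 8 * Real.exp (D / 2) * Real.exp D ≤ 8 / (N : ℝ) ^ 2 * Real.exp (2 * D) := by
      have e1 : Real.exp (2 * D) = Real.exp (D / 2) * Real.exp (D / 2) * Real.exp D := by
        rw [← Real.exp_add, ← Real.exp_add]; congr 1; ring
      rw [e1, div_mul_eq_mul_div, le_div_iff₀ (by positivity)]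
      have : 0 ≤ 8 * Real.exp (D / 2) * Real.exp D := by positivity
      calc 8 * Real.exp (D / 2) * Real.exp D * (N : ℝ) ^ 2
          ≤ 8 * Real.exp (D / 2) * Real.exp D * Real.exp (D / 2) :=
            mul_le_mul_of_nonneg_left h3 this
        _ = _ := by ring
    have h6 : 0 ≤ 16 * Real.exp 4 * Real.log N ^ 2 := by positivity
    linarith

/-- one slot -/
theorem conc_slot (h : Adm N r l) (hN : 3 ≤ N) {G : Cfg N → ℝ} (hG : concLip G) (lam : ℝ)
    (hlam : |lam| ≤ 1 / Real.log N) (σ : ℕ → Finset ℕ) (m : ℕ) (hm : m ≤ 2 * N) (η : Cfg N) :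
    ev r l σ m (fun ξ => Real.exp (lam * G ξ)) η ≤
      Real.exp (lam * ev r l σ m G η + concC * (lam ^ 2 * Real.log N ^ 2)) := by
  have hL := conc_logN hN
  have hN' : (0 : ℝ) < N := by exact_mod_cast (by omega : 0 < N)
  have h3N : (3 : ℝ) ≤ N := by exact_mod_cast hN
  obtain ⟨K, hK⟩ : ∃ K : ℝ, K = 1 - lam * G η + lam ^ 2 * (16 * Real.exp 4 * Real.log N ^ 2) := ⟨_, rfl⟩
  obtain ⟨K2, hK2⟩ : ∃ K2 : ℝ, K2 = lam ^ 2 * (8 / (N : ℝ) ^ 2) := ⟨_, rfl⟩
  -- pointwise
  have hpt : ∀ ξ : Cfg N, Real.exp (lam * G ξ) ≤ Real.exp (lam * G η) *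
      (K + (lam * G ξ + K2 * Real.exp (2 * (concD η ξ : ℕ)))) := by
    intro ξ
    rw [hK, hK2]
    have hd := conc_D_hle η ξ
    have hY : |G ξ - G η| ≤ (concD η ξ : ℕ) := by
      rw [abs_le]
      have a1 := hG _ _ _ hd.1 hd.2
      have a2 := hG _ _ _ hd.2 hd.1
      constructor <;> linarith
    have h1 := conc_exp (lam * (G ξ - G η))
    have h2 : (lam * (G ξ - G η)) ^ 2 * Real.exp |lam * (G ξ - G η)| ≤
        lam ^ 2 * ((concD η ξ : ℕ) ^ 2 * Real.exp (|lam| * (concD η ξ : ℕ))) := by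
      rw [mul_pow, abs_mul, mul_assoc]
      apply mul_le_mul_of_nonneg_left _ (sq_nonneg lam)
      have b1 : (G ξ - G η) ^ 2 ≤ ((concD η ξ : ℕ) : ℝ) ^ 2 := by
        rw [← sq_abs]
        exact pow_le_pow_left₀ (abs_nonneg _) hY 2
      have b2 : Real.exp (|lam| * |G ξ - G η|) ≤ Real.exp (|lam| * (concD η ξ : ℕ)) :=
        Real.exp_le_exp.2 (mul_le_mul_of_nonneg_left hY (abs_nonneg _))
      exact mul_le_mul b1 b2 (Real.exp_pos _).le (by positivity)
    have h3 := conc_pt hN lam ((concD η ξ : ℕ) : ℝ) (Nat.cast_nonneg _) hlam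
    have h4 := mul_le_mul_of_nonneg_left h3 (sq_nonneg lam)
    have e1 : Real.exp (lam * G ξ) = Real.exp (lam * G η) * Real.exp (lam * (G ξ - G η)) := by
      rw [← Real.exp_add]; congr 1; ring
    rw [e1]
    apply mul_le_mul_of_nonneg_left _ (Real.exp_pos _).le
    linarith
  refine (ev_mono h hpt σ m η).trans ?_
  rw [ev_smul, ev_add_fun, ev_add_fun, ev_const, ev_smul, ev_smul]
  have hD := conc_D_ev h hN η σ m hm
  set E := ev r l σ m (fun ξ => Real.exp (2 * (concD η ξ : ℕ))) η with hE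
  set g := ev r l σ m G η with hg
  have h8 : 8 / (N : ℝ) ^ 2 * E ≤ 8 * Real.exp (2 * (Real.exp 2 - 1)) * Real.log N ^ 2 := by
    have c1 : 8 / (N : ℝ) ^ 2 * E ≤ 8 / (N : ℝ) ^ 2 * (N * Real.exp (2 * (Real.exp 2 - 1))) :=
      mul_le_mul_of_nonneg_left hD (by positivity)
    have c2 : 8 / (N : ℝ) ^ 2 * (N * Real.exp (2 * (Real.exp 2 - 1))) =
        8 * Real.exp (2 * (Real.exp 2 - 1)) / N := by field_simp
    have c3 : 8 * Real.exp (2 * (Real.exp 2 - 1)) / N ≤ 8 * Real.exp (2 * (Real.exp 2 - 1)) :=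
      div_le_self (by positivity) (by linarith)
    have c4 : (1 : ℝ) ≤ Real.log N ^ 2 := one_le_pow₀ hL
    have c5 : 0 ≤ 8 * Real.exp (2 * (Real.exp 2 - 1)) := by positivity
    nlinarith
  have h9 : (1 - lam * G η + lam ^ 2 * (16 * Real.exp 4 * Real.log N ^ 2)) +
      (lam * g + lam ^ 2 * (8 / (N : ℝ) ^ 2) * E) ≤
      Real.exp (lam * g - lam * G η + concC * (lam ^ 2 * Real.log N ^ 2)) := by
    have d1 := Real.add_one_le_exp (lam * g - lam * G η + concC * (lam ^ 2 * Real.log N ^ 2))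
    have d2 := mul_le_mul_of_nonneg_left h8 (sq_nonneg lam)
    unfold concC at d1 ⊢
    nlinarith
  rw [hK, hK2]
  calc _ ≤ Real.exp (lam * G η) *
        Real.exp (lam * g - lam * G η + concC * (lam ^ 2 * Real.log N ^ 2)) :=
        mul_le_mul_of_nonneg_left h9 (Real.exp_pos _).le
    _ = _ := by rw [← Real.exp_add]; congr 1; ring

theorem conc_slots (h : Adm N r l) (hN : 3 ≤ N) (lam : ℝ)
    (hlam : |lam| ≤ 1 / Real.log N) (j : ℕ) : ∀ (σ : ℕ → Finset ℕ) (m : ℕ), m ≤ j * (2 * N) →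
    ∀ (G : Cfg N → ℝ), concLip G → ∀ (η : Cfg N),
    ev r l σ m (fun ξ => Real.exp (lam * G ξ)) η ≤
      Real.exp (lam * ev r l σ m G η + j * (concC * (lam ^ 2 * Real.log N ^ 2))) := by
  have hC : 0 ≤ concC * (lam ^ 2 * Real.log N ^ 2) := by
    unfold concC; positivity
  induction j with
  | zero =>
    intro σ m hm G hG η
    have : m = 0 := by omega
    subst this
    simp [ev]
  | succ j ih =>
    intro σ m hm G hG η
    set s := min m (2 * N) with hs
    have hms : m = s + (m - s) := by omega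
    have h1 : m - s ≤ j * (2 * N) := by
      have : m ≤ j * (2 * N) + 2 * N := by
        calc m ≤ (j + 1) * (2 * N) := hm
          _ = _ := by ring
      omega
    set t := m - s with ht'
    rw [hms, ev_add, ev_add]
    set G' := ev r l (fun i => σ (i + s)) t G with hG'
    have hL' : concLip G' := conc_lip_ev h hG _ _
    calc ev r l σ s (ev r l (fun i => σ (i + s)) t (fun ξ => Real.exp (lam * G ξ))) η
        ≤ ev r l σ s (fun ξ => Real.exp (j * (concC * (lam ^ 2 * Real.log N ^ 2))) *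
            Real.exp (lam * G' ξ)) η := by
          apply ev_mono h
          intro ξ
          refine (ih _ t h1 G hG ξ).trans (le_of_eq ?_)
          rw [← Real.exp_add]; congr 1; ring
      _ = Real.exp (j * (concC * (lam ^ 2 * Real.log N ^ 2))) *
            ev r l σ s (fun ξ => Real.exp (lam * G' ξ)) η := by rw [ev_smul]
      _ ≤ Real.exp (j * (concC * (lam ^ 2 * Real.log N ^ 2))) *
            Real.exp (lam * ev r l σ s G' η + concC * (lam ^ 2 * Real.log N ^ 2)) :=
          mul_le_mul_of_nonneg_left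
            (conc_slot h hN hL' lam hlam σ s (min_le_right _ _) η) (Real.exp_pos _).le
      _ = _ := by
          rw [← Real.exp_add]; congr 1; push_cast; ring

theorem st_CONC : ST_CONC := by
  refine ⟨4 * concC, by unfold concC; positivity, ?_⟩
  intro N r l σ m x a η hN h ha0 ha
  have hL := conc_logN hN
  have hL0 : 0 < Real.log N := by linarith
  have hN' : (0 : ℝ) < N := by exact_mod_cast (by omega : 0 < N)
  set T : ℝ := (m : ℝ) / (2 * N) + 1 with hT
  have hT1 : 1 ≤ T := by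
    have : 0 ≤ (m : ℝ) / (2 * N) := by positivity
    linarith
  have hC1 : 1 ≤ concC := by
    unfold concC
    have h1 : (1 : ℝ) ≤ Real.exp 4 := Real.one_le_exp (by norm_num)
    have h2 : 0 ≤ 8 * Real.exp (2 * (Real.exp 2 - 1)) := by positivity
    linarith
  set J : ℕ := m / (2 * N) + 1 with hJ
  have hJm : m ≤ J * (2 * N) := by
    rw [hJ]
    exact (Nat.lt_div_mul_add (show 0 < 2 * N by omega)).le.trans (le_of_eq (by ring))
  have hJT : (J : ℝ) ≤ T := by
    rw [hJ, hT]
    push_cast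
    have : ((m / (2 * N) : ℕ) : ℝ) ≤ (m : ℝ) / ((2 * N : ℕ) : ℝ) := Nat.cast_div_le
    push_cast at this
    linarith
  set lam : ℝ := a / (2 * concC * T * Real.log N ^ 2) with hlam
  have hlam0 : 0 ≤ lam := by positivity
  have hlam1 : lam ≤ 1 / Real.log N := by
    rw [hlam, div_le_div_iff₀ (by positivity) hL0]
    have h1 : a * Real.log N ≤ T * Real.log N * Real.log N :=
      mul_le_mul_of_nonneg_right ha hL0.le
    have h2 : 0 ≤ T * Real.log N ^ 2 := by positivity
    nlinarith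
  set E := ev r l σ m (fun ζ => (ht ζ x : ℝ)) η with hE
  have hup := conc_slots h hN lam (by rw [abs_of_nonneg hlam0]; exact hlam1) J σ m hJm _
    (conc_lip_ht x) η
  have hdn := conc_slots h hN (-lam) (by rw [abs_neg, abs_of_nonneg hlam0]; exact hlam1) J σ m hJm _
    (conc_lip_ht x) η
  have hpt : ∀ ξ : Cfg N, ind {ξ | a ≤ |(ht ξ x : ℝ) - E|} ξ ≤
      Real.exp (-(lam * a) - lam * E) * Real.exp (lam * (ht ξ x : ℝ)) +
      Real.exp (-(lam * a) + lam * E) * Real.exp (-lam * (ht ξ x : ℝ)) := by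
    intro ξ
    have p1 : 0 < Real.exp (-(lam * a) - lam * E) * Real.exp (lam * (ht ξ x : ℝ)) := by positivity
    have p2 : 0 < Real.exp (-(lam * a) + lam * E) * Real.exp (-lam * (ht ξ x : ℝ)) := by positivity
    unfold ind
    split_ifs with hm
    · have hm' : a ≤ |(ht ξ x : ℝ) - E| := hm
      rcases le_abs.1 hm' with h1 | h1
      · have : 1 ≤ Real.exp (-(lam * a) - lam * E) * Real.exp (lam * (ht ξ x : ℝ)) := by
          rw [← Real.exp_add]
          apply Real.one_le_exp
          nlinarith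
        linarith
      · have : 1 ≤ Real.exp (-(lam * a) + lam * E) * Real.exp (-lam * (ht ξ x : ℝ)) := by
          rw [← Real.exp_add]
          apply Real.one_le_exp
          nlinarith
        linarith
    · linarith
  unfold pr
  refine (ev_mono h hpt σ m η).trans ?_
  rw [ev_add_fun, ev_smul, ev_smul]
  have q1 : Real.exp (-(lam * a) - lam * E) * ev r l σ m (fun ξ => Real.exp (lam * (ht ξ x : ℝ))) η ≤
      Real.exp (-(lam * a) + J * (concC * (lam ^ 2 * Real.log N ^ 2))) := by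
    calc _ ≤ Real.exp (-(lam * a) - lam * E) *
          Real.exp (lam * E + J * (concC * (lam ^ 2 * Real.log N ^ 2))) :=
          mul_le_mul_of_nonneg_left hup (Real.exp_pos _).le
      _ = _ := by rw [← Real.exp_add]; congr 1; ring
  have q2 : Real.exp (-(lam * a) + lam * E) *
      ev r l σ m (fun ξ => Real.exp (-lam * (ht ξ x : ℝ))) η ≤
      Real.exp (-(lam * a) + J * (concC * (lam ^ 2 * Real.log N ^ 2))) := by
    calc _ ≤ Real.exp (-(lam * a) + lam * E) *
          Real.exp (-lam * E + J * (concC * ((-lam) ^ 2 * Real.log N ^ 2))) :=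
          mul_le_mul_of_nonneg_left hdn (Real.exp_pos _).le
      _ = _ := by rw [← Real.exp_add]; congr 1; ring
  have q3 : -(lam * a) + J * (concC * (lam ^ 2 * Real.log N ^ 2)) ≤
      -(a ^ 2 / (4 * concC * T * Real.log N ^ 2)) := by
    have r1 : J * (concC * (lam ^ 2 * Real.log N ^ 2)) ≤ T * (concC * (lam ^ 2 * Real.log N ^ 2)) :=
      mul_le_mul_of_nonneg_right hJT (by positivity)
    have r2 : -(lam * a) + T * (concC * (lam ^ 2 * Real.log N ^ 2)) =
        -(a ^ 2 / (4 * concC * T * Real.log N ^ 2)) := by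
      rw [hlam]
      have hc0 : concC ≠ 0 := by positivity
      have ht0 : T ≠ 0 := by positivity
      have hl0 : Real.log N ≠ 0 := hL0.ne'
      field_simp
      ring
    linarith
  have q4 := Real.exp_le_exp.2 q3
  linarith

end Pool.Agent.Helper98.EX
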