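import Pool.Agent.Helper98.EX.Stmts2
import Pool.Agent.Helper55.EX.TIME

/-!
# Module DT2 of ex_mods (MP_157eb8_pr): deterministic theorem 2 (non-nestling case)
-/

namespace Pool.Agent.Helper98.EX

open Finset

variable {N : ℕ}

/-! ### hitting probabilities decrease in time -/

theorem dt2_nohit_step {r l : ℕ → ℝ} (h : Adm N r l) (S : Finset ℕ) (T : Set (Cfg N)) (m : ℕ) :
    ∀ η : Cfg N, nohit r l S T (m + 1) η ≤ nohit r l S T m η := by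
  have hpos : ∀ m : ℕ, ∀ η : Cfg N, 0 ≤ nohit r l S T m η := by
    intro m
    induction m with
    | zero => intro η; have := ind_le_one T η; simp only [nohit]; linarith
    | succ m ih =>
      intro η
      have h1 := ind_le_one T η
      have h2 := stp_nonneg (S := S) h ih η
      simp only [nohit]
      exact mul_nonneg (by linarith) h2
  induction m with
  | zero =>
    intro η
    have h1 := ind_le_one T η
    have h2 : stp r l S (nohit r l S T 0) η ≤ 1 := by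
      have := stp_mono (S := S) h (f := nohit r l S T 0) (g := fun _ => 1)
        (fun ξ => by have := ind_nonneg T ξ; simp only [nohit]; linarith) η
      rwa [stp_const] at this
    show (1 - ind T η) * stp r l S (nohit r l S T 0) η ≤ 1 - ind T η
    have h3 : 0 ≤ 1 - ind T η := by linarith
    nlinarith
  | succ m ih =>
    intro η
    have h1 := ind_le_one T η
    have h2 := stp_mono (S := S) h ih η
    show (1 - ind T η) * stp r l S (nohit r l S T (m + 1)) η ≤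
      (1 - ind T η) * stp r l S (nohit r l S T m) η
    exact mul_le_mul_of_nonneg_left h2 (by linarith)

theorem dt2_nohit_anti {r l : ℕ → ℝ} (h : Adm N r l) (S : Finset ℕ) (T : Set (Cfg N)) (η : Cfg N)
    {m n : ℕ} (hmn : m ≤ n) : nohit r l S T n η ≤ nohit r l S T m η := by
  induction n, hmn using Nat.le_induction with
  | base => exact le_rfl
  | succ n _ ih => exact (dt2_nohit_step h S T n η).trans ih

/-! ### the comparison state -/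

theorem dt2_occ_zet (A B x0 n : ℕ) {i : ℕ} : occ (zet N A B x0 n) i = true ↔
    ((A ≤ i ∧ i < A + n) ∨ (x0 ≤ i ∧ i + n < B) ∨ (x0 ≤ i ∧ B ≤ i)) ∧ i < N := by
  unfold occ zet; split_ifs with h <;> simp [h]

theorem dt2_ht_zet {A B x0 n : ℕ} (h1 : A + n ≤ x0) (h2 : x0 + n ≤ B) (h3 : B ≤ N) (x : ℕ)
    (hx : x ≤ N) : ht (zet N A B x0 n) x =
      (A + n - max A x) + (B - n - max x0 x) + (N - max B x) := by
  have h : ∀ d, d ≤ N → ht (zet N A B x0 n) (N - d) =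
      (A + n - max A (N - d)) + (B - n - max x0 (N - d)) + (N - max B (N - d)) := by
    intro d
    induction d with
    | zero => intro _; rw [ht_ge (by omega)]; omega
    | succ d ih =>
      intro hd
      have e : N - (d + 1) + 1 = N - d := by omega
      rw [ht_succ _ (by omega : N - (d + 1) < N), e, ih (by omega)]
      by_cases hh : (A ≤ N - (d + 1) ∧ N - (d + 1) < A + n) ∨
          (x0 ≤ N - (d + 1) ∧ N - (d + 1) + n < B) ∨ (x0 ≤ N - (d + 1) ∧ B ≤ N - (d + 1))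
      · rw [if_pos (by rw [dt2_occ_zet]; exact ⟨hh, by omega⟩)]; omega
      · rw [if_neg (by rw [dt2_occ_zet]; tauto)]; omega
  have := h (N - x) (by omega)
  have e : N - (N - x) = x := by omega
  rwa [e] at this

/-- the deterministic comparison -/
theorem dt2_zet_le {k g n : ℕ} (hk : k ≤ N) (hg : 3 * g ≤ k) (hg' : 3 * g ≤ N - k) (hn : n ≤ g)
    {ξ : Cfg N} (h0 : ht ξ 0 = k) (h1 : ht ξ (N - k - 2 * g) = k)
    (h2 : ht ξ (N - k + 2 * g) = k - 2 * g)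
    (h3 : ∀ x, x ≤ N → min k (N - x) ≤ ht ξ x + n) :
    hle 0 (zet N (N - k - 3 * g) (N - k + 3 * g) (N - k) n) ξ := by
  intro x
  rcases le_or_gt x N with hx | hx
  · rw [dt2_ht_zet (by omega) (by omega) (by omega) x hx]
    rcases le_or_gt x (N - k - 2 * g) with ha | ha
    · have := ht_anti ξ ha
      rw [h1] at this
      omega
    · rcases le_or_gt (N - k + 2 * g) x with hb | hb
      · have hc := ht_le_sub ξ hb
        rw [h2] at hc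
        omega
      · have := h3 x hx
        omega
  · rw [ht_ge (by omega)]; omega

/-! ### mirror image -/

theorem dt2_mirS_full (N : ℕ) : mirS N (full N) = full N := by
  unfold mirS full
  ext x
  simp only [Finset.inter_self, Finset.mem_image, Finset.mem_Ico]
  constructor
  · rintro ⟨a, ha, rfl⟩; omega
  · intro hx; exact ⟨N - x, by omega, by omega⟩

theorem dt2_mir_bot {k : ℕ} (hk : k ≤ N) : mir (bot N k) = bot N (N - k) := by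
  funext i
  have hi := i.isLt
  unfold mir
  show (!(occ (bot N k) (N - 1 - i.val))) = decide (i.val < N - k)
  by_cases h : i.val < N - k
  · have h1 : ¬ (occ (bot N k) (N - 1 - i.val) = true) := by rw [occ_bot]; omega
    simp only [Bool.not_eq_true] at h1
    rw [h1]; simp [h]
  · have h1 : occ (bot N k) (N - 1 - i.val) = true := by rw [occ_bot]; omega
    rw [h1]; simp [h]

theorem dt2_mirror (hMIR : ST_MIR) {k : ℕ} (hk : k ≤ N) (r l : ℕ → ℝ) (m : ℕ)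
    (g : Cfg N → ℝ) :
    ev (mirr N r) (mirr N l) (fun _ => full N) m g (bot N (N - k)) =
      ev r l (fun _ => full N) m (fun ζ => g (mir ζ)) (bot N k) := by
  obtain ⟨h1, -, -, h4⟩ := hMIR N
  rw [h4 r l (fun _ => full N) m (fun ζ => g (mir ζ)) (bot N k), dt2_mir_bot hk, dt2_mirS_full]
  simp only [h1]

theorem dt2_NN_mirr {r l : ℕ → ℝ} {p0 q0 : ℝ} (h : NN N r l p0 q0) :
    NN N (mirr N r) (mirr N l) p0 q0 := by
  intro x hx hxN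
  exact h (N - x) (by omega) (by omega)

theorem dt2_Adm {r l : ℕ → ℝ} {p0 q0 : ℝ} (h : NN N r l p0 q0) (hp : 0 < p0) (hq : q0 ≤ 1) :
    Adm N r l := by
  intro x hx hxN
  obtain ⟨a, b, c, d⟩ := h x hx hxN
  exact ⟨by linarith, b, c, by linarith⟩

/-! ### asymptotics -/

theorem dt2_ge (a : ℝ) {s : ℝ} (hs : 0 < s) : ∀ᶠ N : ℕ in Filter.atTop, a ≤ (N : ℝ) ^ s :=
  ((tendsto_rpow_atTop hs).comp tendsto_natCast_atTop_atTop).eventually_ge_atTop a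

theorem dt2_log {s : ℝ} (hs : 0 < s) : ∀ᶠ N : ℕ in Filter.atTop, Real.log N ≤ (N : ℝ) ^ s := by
  have h := (isLittleO_log_rpow_atTop hs).bound (c := 1) one_pos
  have h2 := tendsto_natCast_atTop_atTop (R := ℝ) |>.eventually h
  filter_upwards [h2, Filter.eventually_ge_atTop 1] with N hN h1
  have h3 : (1 : ℝ) ≤ N := by exact_mod_cast h1
  rw [Real.norm_of_nonneg (Real.log_nonneg h3),
    Real.norm_of_nonneg (Real.rpow_nonneg (by linarith) s), one_mul] at hN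
  exact hN

/-- all numerical conditions -/
theorem dt2_num (c' K K0 as Cf δ δ1 ε : ℝ) (m0 : ℕ) (hc' : 0 < c') (hK : 0 < K) (hK0 : 0 < K0)
    (has : 1 ≤ as) (hCf : 0 ≤ Cf) (hδ : 0 < δ) (hδ1 : 0 < δ1) (hε : 0 < ε) :
    ∃ N6 : ℕ, ∀ N : ℕ, N6 ≤ N → 1 ≤ (N : ℝ) ∧ Real.log N ^ 2 ≤ c' * N ∧
      m0 + Real.sqrt (K * N + 1) * Real.log N ^ 2 ≤ (N : ℝ) ^ (0.55 : ℝ) ∧
      (⌈2 * (N : ℝ) ^ (0.55 : ℝ)⌉₊ : ℝ) + 1 ≤ δ1 * N ∧ K0 * Real.log N + 1 ≤ δ1 * N ∧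
      16 * ((3 * (⌈2 * (N : ℝ) ^ (0.55 : ℝ)⌉₊ : ℝ) + 5) * ((N : ℝ) ^ (1 / 20 : ℝ) * as)) + Cf + 1 ≤
        δ * c' / 2 * N ∧
      2 * (N : ℝ) ^ (-2 : ℝ) + (N : ℝ) ^ (-6 : ℝ) ≤ ε / 16 := by
  have hev : ∀ᶠ N : ℕ in Filter.atTop, 1 ≤ N ∧ Real.log N ≤ (N : ℝ) ^ (0.02 : ℝ) ∧
      1 / c' ≤ (N : ℝ) ^ (0.96 : ℝ) ∧ m0 + Real.sqrt (K + 1) ≤ (N : ℝ) ^ (0.01 : ℝ) ∧
      4 / δ1 ≤ (N : ℝ) ^ (0.45 : ℝ) ∧ (K0 + 1) / δ1 ≤ (N : ℝ) ^ (0.98 : ℝ) ∧
      (224 * as + Cf + 1) / (δ * c' / 2) ≤ (N : ℝ) ^ (0.4 : ℝ) ∧ 48 / ε ≤ (N : ℝ) ^ (1 : ℝ) := by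
    filter_upwards [Filter.eventually_ge_atTop 1, dt2_log (s := 0.02) (by norm_num),
      dt2_ge (1 / c') (s := 0.96) (by norm_num),
      dt2_ge (m0 + Real.sqrt (K + 1)) (s := 0.01) (by norm_num),
      dt2_ge (4 / δ1) (s := 0.45) (by norm_num), dt2_ge ((K0 + 1) / δ1) (s := 0.98) (by norm_num),
      dt2_ge ((224 * as + Cf + 1) / (δ * c' / 2)) (s := 0.4) (by norm_num),
      dt2_ge (48 / ε) (s := 1) (by norm_num)] with N h1 h2 h3 h4 h5 h6 h7 h8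
    exact ⟨h1, h2, h3, h4, h5, h6, h7, h8⟩
  obtain ⟨N6, hN6⟩ := Filter.eventually_atTop.1 hev
  refine ⟨N6, fun N hN => ?_⟩
  obtain ⟨h1, h2, h3, h4, h5, h6, h7, h8⟩ := hN6 N hN
  have hN1 : (1 : ℝ) ≤ N := by exact_mod_cast h1
  have hN0 : (0 : ℝ) < N := by linarith
  have hadd : ∀ a b : ℝ, (N : ℝ) ^ a * (N : ℝ) ^ b = (N : ℝ) ^ (a + b) := fun a b =>
    (Real.rpow_add hN0 a b).symm
  have hone : ∀ a : ℝ, 0 ≤ a → 1 ≤ (N : ℝ) ^ a := fun a ha => Real.one_le_rpow hN1 ha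
  have hlog0 : 0 ≤ Real.log N := Real.log_nonneg hN1
  have hlog2 : Real.log N ^ 2 ≤ (N : ℝ) ^ (0.04 : ℝ) := by
    have : Real.log N ^ 2 ≤ ((N : ℝ) ^ (0.02 : ℝ)) ^ 2 := pow_le_pow_left₀ hlog0 h2 2
    refine this.trans (le_of_eq ?_)
    rw [sq, hadd]; norm_num
  refine ⟨hN1, ?_, ?_, ?_, ?_, ?_, ?_⟩
  · -- log^2 ≤ c' N
    have e : (N : ℝ) = (N : ℝ) ^ (0.96 : ℝ) * (N : ℝ) ^ (0.04 : ℝ) := by
      rw [hadd]; norm_num
    have h9 : 1 ≤ c' * (N : ℝ) ^ (0.96 : ℝ) := by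
      rw [div_le_iff₀ hc'] at h3; linarith
    have h10 := hone 0.04 (by norm_num)
    calc Real.log N ^ 2 ≤ (N : ℝ) ^ (0.04 : ℝ) := hlog2
      _ ≤ (c' * (N : ℝ) ^ (0.96 : ℝ)) * (N : ℝ) ^ (0.04 : ℝ) := by nlinarith
      _ = c' * N := by rw [mul_assoc, ← e]
  · -- sqrt
    have h9 : Real.sqrt (K * N + 1) ≤ Real.sqrt (K + 1) * (N : ℝ) ^ (0.5 : ℝ) := by
      have : K * N + 1 ≤ (K + 1) * N := by nlinarith
      refine (Real.sqrt_le_sqrt this).trans (le_of_eq ?_)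
      rw [Real.sqrt_mul (by linarith), Real.sqrt_eq_rpow (N : ℝ)]
      norm_num
    have h10 := Real.sqrt_nonneg (K + 1)
    have h11 := hone 0.54 (by norm_num)
    have e : (N : ℝ) ^ (0.01 : ℝ) * (N : ℝ) ^ (0.54 : ℝ) = (N : ℝ) ^ (0.55 : ℝ) := by
      rw [hadd]; norm_num
    have e2 : (N : ℝ) ^ (0.5 : ℝ) * (N : ℝ) ^ (0.04 : ℝ) = (N : ℝ) ^ (0.54 : ℝ) := by
      rw [hadd]; norm_num
    have h12 : Real.sqrt (K * N + 1) * Real.log N ^ 2 ≤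
        Real.sqrt (K + 1) * (N : ℝ) ^ (0.54 : ℝ) := by
      calc Real.sqrt (K * N + 1) * Real.log N ^ 2 ≤
          (Real.sqrt (K + 1) * (N : ℝ) ^ (0.5 : ℝ)) * (N : ℝ) ^ (0.04 : ℝ) :=
            mul_le_mul h9 hlog2 (by positivity) (by positivity)
        _ = _ := by rw [mul_assoc, e2]
    have h13 : (m0 : ℝ) ≤ m0 * (N : ℝ) ^ (0.54 : ℝ) := by
      have : (0 : ℝ) ≤ m0 := Nat.cast_nonneg m0
      nlinarith
    calc (m0 : ℝ) + Real.sqrt (K * N + 1) * Real.log N ^ 2 ≤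
        (m0 + Real.sqrt (K + 1)) * (N : ℝ) ^ (0.54 : ℝ) := by linarith
      _ ≤ (N : ℝ) ^ (0.01 : ℝ) * (N : ℝ) ^ (0.54 : ℝ) :=
          mul_le_mul_of_nonneg_right h4 (by positivity)
      _ = _ := e
  · have h9 : (⌈2 * (N : ℝ) ^ (0.55 : ℝ)⌉₊ : ℝ) < 2 * (N : ℝ) ^ (0.55 : ℝ) + 1 :=
      Nat.ceil_lt_add_one (by positivity)
    have h10 := hone 0.55 (by norm_num)
    have e : (N : ℝ) ^ (0.45 : ℝ) * (N : ℝ) ^ (0.55 : ℝ) = N := by
      rw [hadd]; norm_num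
    have h11 : 4 ≤ δ1 * (N : ℝ) ^ (0.45 : ℝ) := by
      rw [div_le_iff₀ hδ1] at h5; linarith
    calc (⌈2 * (N : ℝ) ^ (0.55 : ℝ)⌉₊ : ℝ) + 1 ≤ 4 * (N : ℝ) ^ (0.55 : ℝ) := by linarith
      _ ≤ (δ1 * (N : ℝ) ^ (0.45 : ℝ)) * (N : ℝ) ^ (0.55 : ℝ) :=
          mul_le_mul_of_nonneg_right h11 (by positivity)
      _ = δ1 * N := by rw [mul_assoc, e]
  · have h10 := hone 0.02 (by norm_num)
    have e : (N : ℝ) ^ (0.98 : ℝ) * (N : ℝ) ^ (0.02 : ℝ) = N := by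
      rw [hadd]; norm_num
    have h11 : K0 + 1 ≤ δ1 * (N : ℝ) ^ (0.98 : ℝ) := by
      rw [div_le_iff₀ hδ1] at h6; linarith
    calc K0 * Real.log N + 1 ≤ (K0 + 1) * (N : ℝ) ^ (0.02 : ℝ) := by nlinarith
      _ ≤ (δ1 * (N : ℝ) ^ (0.98 : ℝ)) * (N : ℝ) ^ (0.02 : ℝ) :=
          mul_le_mul_of_nonneg_right h11 (by positivity)
      _ = δ1 * N := by rw [mul_assoc, e]
  · have h9 : (⌈2 * (N : ℝ) ^ (0.55 : ℝ)⌉₊ : ℝ) < 2 * (N : ℝ) ^ (0.55 : ℝ) + 1 :=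
      Nat.ceil_lt_add_one (by positivity)
    have h10 := hone 0.55 (by norm_num)
    have h11 := hone 0.6 (by norm_num)
    have e : (N : ℝ) ^ (0.55 : ℝ) * (N : ℝ) ^ (1 / 20 : ℝ) = (N : ℝ) ^ (0.6 : ℝ) := by
      rw [hadd]; norm_num
    have e2 : (N : ℝ) ^ (0.4 : ℝ) * (N : ℝ) ^ (0.6 : ℝ) = N := by
      rw [hadd]; norm_num
    have hd : 0 < δ * c' / 2 := by positivity
    have h12 : 224 * as + Cf + 1 ≤ δ * c' / 2 * (N : ℝ) ^ (0.4 : ℝ) := by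
      rw [div_le_iff₀ hd] at h7; linarith
    have h13 : 3 * (⌈2 * (N : ℝ) ^ (0.55 : ℝ)⌉₊ : ℝ) + 5 ≤ 14 * (N : ℝ) ^ (0.55 : ℝ) := by
      linarith
    have h14 : (3 * (⌈2 * (N : ℝ) ^ (0.55 : ℝ)⌉₊ : ℝ) + 5) * ((N : ℝ) ^ (1 / 20 : ℝ) * as) ≤
        14 * as * (N : ℝ) ^ (0.6 : ℝ) := by
      calc (3 * (⌈2 * (N : ℝ) ^ (0.55 : ℝ)⌉₊ : ℝ) + 5) * ((N : ℝ) ^ (1 / 20 : ℝ) * as) ≤
          (14 * (N : ℝ) ^ (0.55 : ℝ)) * ((N : ℝ) ^ (1 / 20 : ℝ) * as) :=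
            mul_le_mul_of_nonneg_right h13 (by positivity)
        _ = 14 * as * ((N : ℝ) ^ (0.55 : ℝ) * (N : ℝ) ^ (1 / 20 : ℝ)) := by ring
        _ = _ := by rw [e]
    calc 16 * ((3 * (⌈2 * (N : ℝ) ^ (0.55 : ℝ)⌉₊ : ℝ) + 5) * ((N : ℝ) ^ (1 / 20 : ℝ) * as)) +
          Cf + 1 ≤ (224 * as + Cf + 1) * (N : ℝ) ^ (0.6 : ℝ) := by nlinarith
      _ ≤ (δ * c' / 2 * (N : ℝ) ^ (0.4 : ℝ)) * (N : ℝ) ^ (0.6 : ℝ) :=
          mul_le_mul_of_nonneg_right h12 (by positivity)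
      _ = δ * c' / 2 * N := by rw [mul_assoc, e2]
  · rw [Real.rpow_one] at h8
    have h9 : (N : ℝ) ^ (-2 : ℝ) ≤ (N : ℝ) ^ (-1 : ℝ) :=
      Real.rpow_le_rpow_of_exponent_le hN1 (by norm_num)
    have h10 : (N : ℝ) ^ (-6 : ℝ) ≤ (N : ℝ) ^ (-1 : ℝ) :=
      Real.rpow_le_rpow_of_exponent_le hN1 (by norm_num)
    have h11 : (N : ℝ) ^ (-1 : ℝ) = 1 / N := by rw [Real.rpow_neg_one, one_div]
    have h12 : 1 / (N : ℝ) ≤ ε / 48 := by
      rw [div_le_iff₀ hε] at h8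
      rw [div_le_div_iff₀ hN0 (by norm_num)]
      linarith
    linarith

/-- the time estimate -/
theorem dt2_time (N c' δ C3 δ1 as Cf E g Y : ℝ) (m1 : ℕ) (hN : 1 ≤ N) (hC3 : 0 < C3)
    (hδ1 : 0 < δ1) (has : 1 ≤ as) (hCf : 0 ≤ Cf) (hE : 0 ≤ E) (hg : 0 ≤ g) (hδ : 0 < δ)
    (hlow : c' * N ≤ (m1 : ℝ) / (2 * N)) (hY : Y ≤ 2 * N * (16 * (3 * g * as + E) + Cf))
    (hd3 : (C3 + 48 * as) * δ1 ≤ δ * c' / 2) (hgle : g ≤ δ1 * N)
    (htime : 16 * E + Cf + 1 ≤ δ * c' / 2 * N) :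
    m1 + ⌈2 * N * (C3 * δ1 * N)⌉₊ + ⌈Y⌉₊ ≤ ⌈(1 + δ) * (m1 : ℝ)⌉₊ := by
  have hN0 : 0 < N := by linarith
  have h0 : ⌈Y⌉₊ ≤ ⌈2 * N * (16 * (3 * g * as + E) + Cf)⌉₊ := Nat.ceil_mono hY
  have h1 : (⌈2 * N * (16 * (3 * g * as + E) + Cf)⌉₊ : ℝ) <
      2 * N * (16 * (3 * g * as + E) + Cf) + 1 := Nat.ceil_lt_add_one (by positivity)
  have h2 : (⌈2 * N * (C3 * δ1 * N)⌉₊ : ℝ) < 2 * N * (C3 * δ1 * N) + 1 :=
    Nat.ceil_lt_add_one (by positivity)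
  have h4 : c' * N * (2 * N) ≤ m1 := by
    rw [le_div_iff₀ (by positivity)] at hlow; exact hlow
  have h5 : (C3 + 48 * as) * δ1 * N ≤ δ * c' / 2 * N := mul_le_mul_of_nonneg_right hd3 hN0.le
  have h6 : g * as ≤ δ1 * N * as := mul_le_mul_of_nonneg_right hgle (by linarith)
  have h7 : 16 * (3 * g * as + E) + Cf + 1 + C3 * δ1 * N ≤ δ * c' * N := by linarith
  have h8 : 2 * N * (16 * (3 * g * as + E) + Cf + 1 + C3 * δ1 * N) ≤ 2 * N * (δ * c' * N) :=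
    mul_le_mul_of_nonneg_left h7 (by positivity)
  have h9 : δ * (c' * N * (2 * N)) ≤ δ * m1 := mul_le_mul_of_nonneg_left h4 hδ.le
  have h10 : ((m1 + ⌈2 * N * (C3 * δ1 * N)⌉₊ +
      ⌈2 * N * (16 * (3 * g * as + E) + Cf)⌉₊ : ℕ) : ℝ) ≤ (1 + δ) * m1 := by
    push_cast
    linarith
  have h11 : m1 + ⌈2 * N * (C3 * δ1 * N)⌉₊ + ⌈2 * N * (16 * (3 * g * as + E) + Cf)⌉₊ ≤
      ⌈(1 + δ) * (m1 : ℝ)⌉₊ := by exact_mod_cast h10.trans (Nat.le_ceil _)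
  omega

/-- expected heights of the mirrored system -/
theorem dt2_mirhyp (hMIR : ST_MIR) {k : ℕ} (hkN : k ≤ N) (r l : ℕ → ℝ) (m1 : ℕ) (s : ℝ)
    (hH : ∀ x, x ≤ N → (min k (N - x) : ℕ) - s ≤
      ev r l (fun _ => full N) m1 (fun ξ => (ht ξ x : ℝ)) (bot N k)) (x : ℕ) (hx : x ≤ N) :
    (min (N - k) (N - x) : ℕ) - s ≤ ev (mirr N r) (mirr N l) (fun _ => full N) m1
      (fun ξ => (ht ξ x : ℝ)) (bot N (N - k)) := by
  rw [dt2_mirror hMIR hkN]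
  have h1 : ev r l (fun _ => full N) m1 (fun ζ => (ht (mir ζ) x : ℝ)) (bot N k) =
      ev r l (fun _ => full N) m1 (fun ζ => (ht ζ (N - x) : ℝ) + (((N - x : ℕ) : ℝ) - k))
        (bot N k) := by
    apply ev_congr_sector _ _ _ (ht_bot_zero hkN)
    intro η hη
    have h2 := (hMIR N).2.2.1 η x hx
    rw [hη] at h2
    have h3 : ((ht (mir η) x : ℝ)) + k = ((N - x : ℕ) : ℝ) + ht η (N - x) := by
      exact_mod_cast h2
    linarith
  rw [h1, ev_add_fun _ _ (fun ζ => (ht ζ (N - x) : ℝ)) (fun _ => (((N - x : ℕ) : ℝ) - k)),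
    ev_const]
  have h4 := hH (N - x) (by omega)
  have h5 : (min (N - k) (N - x) : ℕ) + k ≤ (min k (N - (N - x)) : ℕ) + (N - x) := by omega
  have h6 : ((min (N - k) (N - x) : ℕ) : ℝ) + k ≤
      ((min k (N - (N - x)) : ℕ) : ℝ) + ((N - x : ℕ) : ℝ) := by exact_mod_cast h5
  linarith

/-- heights at later times -/
theorem dt2_later {k : ℕ} (hkN : k ≤ N) {r l : ℕ → ℝ} (hAdm : Adm N r l) {m1 m n : ℕ}
    (hm : m1 ≤ m) {s e : ℝ} (hs : s ≤ n)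
    (hH2 : pr r l (fun _ => full N) m1 {ξ | ∃ x, x ≤ N ∧ (ht ξ x : ℝ) + s <
      (min k (N - x) : ℕ)} (bot N k) ≤ e) :
    pr r l (fun _ => full N) m {ξ | ∀ x, x ≤ N → min k (N - x) ≤ ht ξ x + n}ᶜ (bot N k) ≤ e := by
  have hinc : Inc k (ind {ξ : Cfg N | ∀ x, x ≤ N → min k (N - x) ≤ ht ξ x + n}) := by
    apply pr_Inc_ind
    intro η ξ _ _ h3 h4 x hx
    have h5 := h3 x
    have h6 := h4 x hx
    omega
  have h1 := st_TIME N k r l m1 m _ hkN hAdm hinc hm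
  have h2 : pr r l (fun _ => full N) m1
      {ξ | ∀ x, x ≤ N → min k (N - x) ≤ ht ξ x + n}ᶜ (bot N k) ≤ e := by
    refine (pr_mono hAdm _ _ ?_ _).trans hH2
    intro ξ hξ
    simp only [Set.mem_compl_iff, Set.mem_ofPred_eq, not_forall, not_le] at hξ
    obtain ⟨x, hx, hlt⟩ := hξ
    refine ⟨x, hx, ?_⟩
    have h3 : ((ht ξ x : ℝ)) + n < (min k (N - x) : ℕ) := by exact_mod_cast hlt
    linarith
  rw [pr_compl] at h2 ⊢
  unfold pr at h2 ⊢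
  linarith

/-- the event of FIN -/
theorem dt2_event (hMIR : ST_MIR) {k g n : ℕ} (hkN : k ≤ N) {r l : ℕ → ℝ} (hAdm : Adm N r l)
    (m : ℕ) (hg : 3 * g ≤ k) (hg' : 3 * g ≤ N - k) (hn : n ≤ g) {a b d : ℝ}
    (hL : pr r l (fun _ => full N) m {ζ | ht ζ (N - k - 2 * g) < k} (bot N k) ≤ a)
    (hR : pr (mirr N r) (mirr N l) (fun _ => full N) m
      {ζ | ht ζ (N - (N - k) - 2 * g) < N - k} (bot N (N - k)) ≤ b)
    (hG : pr r l (fun _ => full N) m {ξ | ∀ x, x ≤ N → min k (N - x) ≤ ht ξ x + n}ᶜ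
      (bot N k) ≤ d) :
    pr r l (fun _ => full N) m
      {ξ | ¬ hle 0 (zet N (N - k - 3 * g) (N - k + 3 * g) (N - k) n) ξ} (bot N k) ≤
      a + b + d := by
  unfold pr at hR
  rw [dt2_mirror hMIR hkN] at hR
  have hsub : pr r l (fun _ => full N) m
      {ξ | ¬ hle 0 (zet N (N - k - 3 * g) (N - k + 3 * g) (N - k) n) ξ} (bot N k) ≤
      pr r l (fun _ => full N) m (({ζ | ht ζ (N - k - 2 * g) < k} ∪
        {ζ | ht (mir ζ) (N - (N - k) - 2 * g) < N - k}) ∪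
        {ξ | ∀ x, x ≤ N → min k (N - x) ≤ ht ξ x + n}ᶜ) (bot N k) := by
    apply pr_mono_sector hAdm _ _ _ (ht_bot_zero hkN)
    intro ξ h0 hξ
    by_contra hcon
    apply hξ
    simp only [Set.mem_union, Set.mem_ofPred_eq, Set.mem_compl_iff, not_or, not_lt, not_not]
      at hcon
    obtain ⟨⟨ha, hb⟩, hc3⟩ := hcon
    apply dt2_zet_le hkN hg hg' hn h0 _ _ hc3
    · have := ht_anti ξ (Nat.zero_le (N - k - 2 * g))
      omega
    · have h2 := (hMIR N).2.2.1 ξ (N - (N - k) - 2 * g) (by omega)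
      have e : N - (N - (N - k) - 2 * g) = N - k + 2 * g := by omega
      rw [e, h0] at h2
      have h3 := ht_le ξ (N - k + 2 * g)
      omega
  have hR' : pr r l (fun _ => full N) m {ζ | ht (mir ζ) (N - (N - k) - 2 * g) < N - k}
      (bot N k) ≤ b := hR
  have h1 := pr_union hAdm (fun _ => full N) m ({ζ | ht ζ (N - k - 2 * g) < k} ∪
        {ζ | ht (mir ζ) (N - (N - k) - 2 * g) < N - k})
        {ξ | ∀ x, x ≤ N → min k (N - x) ≤ ht ξ x + n}ᶜ (bot N k)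
  have h2 := pr_union hAdm (fun _ => full N) m {ζ | ht ζ (N - k - 2 * g) < k}
        {ζ | ht (mir ζ) (N - (N - k) - 2 * g) < N - k} (bot N k)
  linarith

/-- sums of the travel time weights over short intervals -/
theorem dt2_sums {k g w : ℕ} (hkN : k ≤ N) {r l' : ℕ → ℝ} {η0 as γ Cs : ℝ} (hg : 3 * g ≤ k)
    (hg' : 3 * g ≤ N - k)
    (hS : SEnv N r l' (N - k - 3 * g) (N - k) (N - k + 3 * g) w η0 as γ Cs) :
    max (∑ y ∈ Finset.Ico (N - k - 3 * g) (N - k), atl r l' η0 w y)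
      (∑ y ∈ Finset.Ico (N - (N - k + 3 * g)) k, atl (mirr N r) (mirr N l') η0 w y) ≤
      3 * g * as := by
  apply max_le
  · have h1 := Finset.sum_le_card_nsmul (Finset.Ico (N - k - 3 * g) (N - k))
      (fun y => atl r l' η0 w y) as (by
        intro y hy
        rw [Finset.mem_Ico] at hy
        exact hS.at_l y hy.1 hy.2)
    have e : (Finset.Ico (N - k - 3 * g) (N - k)).card = 3 * g := by
      rw [Nat.card_Ico]; omega
    rw [e, nsmul_eq_mul] at h1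
    push_cast at h1
    exact h1
  · have h1 := Finset.sum_le_card_nsmul (Finset.Ico (N - (N - k + 3 * g)) k)
      (fun y => atl (mirr N r) (mirr N l') η0 w y) as (by
        intro y hy
        rw [Finset.mem_Ico] at hy
        exact hS.at_r y hy.1 (by omega))
    have e : (Finset.Ico (N - (N - k + 3 * g)) k).card = 3 * g := by
      rw [Nat.card_Ico]; omega
    rw [e, nsmul_eq_mul] at h1
    push_cast at h1
    exact h1

/-- one environment -/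
theorem dt2_core (hMIR : ST_MIR) {k g n w m1 m m2 : ℕ} {r l : ℕ → ℝ} {p0 q0 : ℝ} (hkN : k ≤ N)
    (hAdm : Adm N r l) (hNN : NN N r l p0 q0) (hg : 3 * g ≤ k) (hg' : 3 * g ≤ N - k)
    (hn : n ≤ g) {η0 as Cs s Cf ell ε : ℝ}
    (hm : m1 ≤ m) (hs : s ≤ n)
    (hH2 : pr r l (fun _ => full N) m1 {ξ | ∃ x, x ≤ N ∧ (ht ξ x : ℝ) + s <
      (min k (N - x) : ℕ)} (bot N k) ≤ (N : ℝ) ^ (-6 : ℝ))
    (hL : pr r l (fun _ => full N) m {ζ | ht ζ (N - k - 2 * g) < k} (bot N k) ≤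
      (N : ℝ) ^ (-2 : ℝ))
    (hR : pr (mirr N r) (mirr N l) (fun _ => full N) m
      {ζ | ht ζ (N - (N - k) - 2 * g) < N - k} (bot N (N - k)) ≤ (N : ℝ) ^ (-2 : ℝ))
    (hFIN : ∀ (A B w n m : ℕ) (as ell e : ℝ),
      SEnv N r (modl N l) A (N - k) B w η0 as (1 / 20) Cs →
      (∀ x, 1 ≤ x → x < N → l x ≤ modl N l x) → m2 ≤ w →
      1 ≤ n → A + n ≤ N - k → N - k + n ≤ B → 1 ≤ as → (N : ℝ) ^ (1 / 20 : ℝ) * as ≤ ell →
      tails N k r (modl N l) m2 ≤ ε / 16 →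
      (∀ b, 1 ≤ b → b < N → N ≤ b + k + m2 → b + k ≤ N + m2 → p0 ≤ r b) → 0 ≤ e →
      pr r l (fun _ => full N) m {ξ | ¬ hle 0 (zet N A B (N - k) n) ξ} (bot N k) ≤ e →
      nohit r l (full N) {top N k} (m + ⌈2 * (N : ℝ) * (16 * (max
        (∑ y ∈ Finset.Ico A (N - k), atl r (modl N l) η0 w y)
        (∑ y ∈ Finset.Ico (N - B) k, atl (mirr N r) (mirr N (modl N l)) η0 w y) +
        (3 * n + 5) * ell) + Cf)⌉₊) (bot N k) ≤ e + 3 * (ε / 16))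
    (hS : SEnv N r (modl N l) (N - k - 3 * g) (N - k) (N - k + 3 * g) w η0 as (1 / 20) Cs)
    (hmod : ∀ x, 1 ≤ x → x < N → l x ≤ modl N l x) (hm2 : m2 ≤ w) (hn1 : 1 ≤ n) (has : 1 ≤ as)
    (hell : ell = (N : ℝ) ^ (1 / 20 : ℝ) * as)
    (htl : tails N k r (modl N l) m2 ≤ ε / 16)
    (hsmall : 2 * (N : ℝ) ^ (-2 : ℝ) + (N : ℝ) ^ (-6 : ℝ) ≤ ε / 16) (t : ℕ)
    (ht : ∀ Y : ℝ, Y ≤ 2 * (N : ℝ) * (16 * (3 * g * as + (3 * n + 5) * ell) + Cf) →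
      m + ⌈Y⌉₊ ≤ t) :
    nohit r l (full N) {top N k} t (bot N k) ≤ ε / 4 := by
  have hG := dt2_later hkN hAdm hm hs hH2
  have hev := dt2_event hMIR hkN hAdm m hg hg' hn hL hR hG
  have hfin := hFIN (N - k - 3 * g) (N - k + 3 * g) w n m as ell
    ((N : ℝ) ^ (-2 : ℝ) + (N : ℝ) ^ (-2 : ℝ) + (N : ℝ) ^ (-6 : ℝ))
    hS hmod hm2 hn1 (by omega) (by omega) has hell.ge htl
    (fun b hb hbN _ _ => (hNN b hb hbN).1) (by positivity) hev
  refine le_trans (dt2_nohit_anti hAdm (full N) {top N k} (bot N k) (ht _ ?_))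
    (hfin.trans (by linarith))
  have h1 := dt2_sums hkN hg hg' hS
  have hN0 : (0 : ℝ) ≤ 2 * N := by positivity
  apply mul_le_mul_of_nonneg_left _ hN0
  linarith

theorem st_DT2 (hLAGL : ST_LAGL) (hHT : ST_HT) (hFIN : ST_FIN) (hNNG : ST_NNG)
    (_hATCMP : ST_ATCMP) (hLOW : ST_LOW) (hMIR : ST_MIR) : ST_DT2 := by
  intro p0 q0 c ε δ K m0 hq0 hqp hp1 hc hε hε1 hδ hK
  have hp0 : 0 < p0 := hq0.trans hqp
  have hq1 : q0 ≤ 1 := hqp.le.trans hp1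
  obtain ⟨ηm, hηm, hηm1, hNNG⟩ := hNNG p0 q0 c (1 / 20) hq0 hqp hp1 hc (by norm_num)
    (by norm_num)
  obtain ⟨K0, as, Cs, C1, has, hCs, hC1, hK0, hNNG⟩ := hNNG ηm hηm le_rfl
  obtain ⟨m2, N1, hNNG⟩ := hNNG (ε / 32) (by positivity)
  obtain ⟨N2, Cf, hCf, hFIN⟩ := hFIN (1 / 20) ηm Cs p0 (ε / 16) m2 (by norm_num) (by norm_num)
    hηm hηm1 hCs hp0 hp1 (by positivity)
  obtain ⟨c', N3, hc', hLOW⟩ := hLOW ε c m0 hε hc
  obtain ⟨N4, hHT⟩ := hHT ε m0 hε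
  obtain ⟨C3, δm, hC3, hδm, hLAGL⟩ := hLAGL p0 q0 c K hq0 hqp hp1 hc hK
  have hCC : 0 < C3 + 48 * as := by linarith
  obtain ⟨δ1, hδ1, hd1, hd2, hd3⟩ : ∃ δ1 : ℝ, 0 < δ1 ∧ δ1 ≤ δm ∧ δ1 ≤ c / 4 ∧
      (C3 + 48 * as) * δ1 ≤ δ * c' / 2 := by
    refine ⟨min δm (min (c / 4) (δ * c' / 2 / (C3 + 48 * as))), ?_, min_le_left _ _,
      (min_le_right _ _).trans (min_le_left _ _), ?_⟩
    · exact lt_min hδm (lt_min (by positivity) (by positivity))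
    · have h1 : min δm (min (c / 4) (δ * c' / 2 / (C3 + 48 * as))) ≤
          δ * c' / 2 / (C3 + 48 * as) := (min_le_right _ _).trans (min_le_right _ _)
      rw [le_div_iff₀ hCC] at h1
      linarith
  obtain ⟨N5, hLAGL⟩ := hLAGL δ1 hδ1 hd1
  obtain ⟨N6, hN6⟩ := dt2_num c' K K0 as Cf δ δ1 ε m0 hc' hK hK0 has hCf hδ hδ1 hε
  refine ⟨N1 + N2 + N3 + N4 + N5 + N6, ?_⟩
  intro N k r l m1 hN hck hkc hNN _ hpr hm1
  obtain ⟨hN1, hlog, hs1, hn1, hw1, htime, hsmall⟩ := hN6 N (by omega)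
  have hN0 : (0 : ℝ) < N := by linarith
  have hAdm : Adm N r l := dt2_Adm hNN hp0 hq1
  have hkN : k ≤ N := by
    have : (k : ℝ) ≤ N := by nlinarith
    exact_mod_cast this
  have hlow := hLOW N k r l m1 (by omega) hck hkc hAdm hpr
  obtain ⟨hH1, hH2⟩ := hHT N k r l m1 (by omega) hkN hAdm hpr (by linarith)
  -- the square root
  have hsq1 : m0 + Real.sqrt ((m1 : ℝ) / (2 * N) + 1) * Real.log N ^ 2 ≤
      (N : ℝ) ^ (0.55 : ℝ) := by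
    have h1 : Real.sqrt ((m1 : ℝ) / (2 * N) + 1) * Real.log N ^ 2 ≤
        Real.sqrt (K * N + 1) * Real.log N ^ 2 :=
      mul_le_mul_of_nonneg_right (Real.sqrt_le_sqrt (by linarith)) (sq_nonneg _)
    linarith
  -- parameters
  obtain ⟨n, hn⟩ : ∃ n : ℕ, n = ⌈2 * (N : ℝ) ^ (0.55 : ℝ)⌉₊ := ⟨_, rfl⟩
  rw [← hn] at hn1 htime
  have hnle : 2 * (N : ℝ) ^ (0.55 : ℝ) ≤ n := by rw [hn]; exact Nat.le_ceil _
  have hnpos : 1 ≤ n := by
    have : (1 : ℝ) ≤ n := by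
      have := Real.one_le_rpow hN1 (show (0 : ℝ) ≤ 0.55 by norm_num)
      linarith
    exact_mod_cast this
  obtain ⟨g, hg⟩ : ∃ g : ℕ, g = ⌊δ1 * (N : ℝ)⌋₊ := ⟨_, rfl⟩
  have hgle : (g : ℝ) ≤ δ1 * N := by
    rw [hg]; exact Nat.floor_le (mul_nonneg hδ1.le hN0.le)
  have hglt : δ1 * N < g + 1 := by rw [hg]; exact Nat.lt_floor_add_one _
  have hng : n ≤ g := by
    have h1 : (n : ℝ) < g + 1 := by linarith
    have h2 : n < g + 1 := by exact_mod_cast h1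
    omega
  have hδN : δ1 * N ≤ c / 4 * N := mul_le_mul_of_nonneg_right hd2 hN0.le
  have hck' : c * N ≤ ((N - k : ℕ) : ℝ) := by rw [Nat.cast_sub hkN]; linarith
  have hkc' : ((N - k : ℕ) : ℝ) ≤ (1 - c) * N := by rw [Nat.cast_sub hkN]; linarith
  have hcN : 0 ≤ c * N := mul_nonneg hc.le hN0.le
  have hgk : 3 * g ≤ k := by
    have h1 : (3 : ℝ) * g ≤ k := by linarith
    exact_mod_cast h1
  have hgk' : 3 * g ≤ N - k := by
    have h1 : (3 : ℝ) * g ≤ ((N - k : ℕ) : ℝ) := by linarith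
    exact_mod_cast h1
  -- the time m
  obtain ⟨m, hm⟩ : ∃ m : ℕ, m = m1 + ⌈2 * (N : ℝ) * (C3 * δ1 * N)⌉₊ := ⟨_, rfl⟩
  have hmle : (m1 : ℝ) + 2 * N * (C3 * δ1 * N) ≤ m := by
    rw [hm, Nat.cast_add]
    have := Nat.le_ceil (2 * (N : ℝ) * (C3 * δ1 * N))
    linarith
  -- left half
  have hHH : ∀ x, x ≤ N → (min k (N - x) : ℕ) - (N : ℝ) ^ (0.55 : ℝ) ≤
      ev r l (fun _ => full N) m1 (fun ξ => (ht ξ x : ℝ)) (bot N k) :=
    fun x hx => by have := hH1 x hx; linarith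
  have hL := hLAGL N k r l m1 m (by omega) hck hkc hNN hm1 hHH hmle
  -- right half
  have hR := hLAGL N (N - k) (mirr N r) (mirr N l) m1 m (by omega) hck' hkc' (dt2_NN_mirr hNN)
    hm1 (dt2_mirhyp hMIR hkN r l m1 _ hHH) hmle
  rw [← hg] at hL hR
  -- environment
  obtain ⟨w, hwlog, hGE, htl, hmod, hSE⟩ := hNNG N k r l (by omega) hck hkc hNN
  have hwg : w ≤ g := by
    have h1 : (w : ℝ) < g + 1 := by linarith
    have h2 : w < g + 1 := by exact_mod_cast h1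
    omega
  have hSEnv := hSE (N - k - 3 * g) (N - k) (N - k + 3 * g) (by omega) (by omega) (by omega)
  exact dt2_core hMIR hkN hAdm hNN hgk hgk' hng (by omega) (by linarith) hH2 hL hR
    (fun A B w n m as ell e h1 h2 h3 h4 h5 h6 h7 h8 h9 h10 h11 h12 =>
      hFIN N k r l (modl N l) A B w n m as ell e (by omega) hkN hAdm h1 h2 h3 h4 h5 h6 h7 h8 h9
        h10 h11 h12)
    hSEnv hmod hGE.m0w hnpos has rfl (by linarith) hsmall _
    (fun Y hY => by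
      rw [hm]
      exact dt2_time N c' δ C3 δ1 as Cf _ g Y m1 hN1 hC3 hδ1 has hCf (by positivity)
        (Nat.cast_nonneg g) hδ hlow hY hd3 hgle htime)

end Pool.Agent.Helper98.EX
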